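import Mathlib

/-!
# A counting bound for functions that miss prescribed values on disjoint blocks
-/

set_option autoImplicit false

namespace Pool.Agent.Lib.MP_8cf036_co_h80

open Finset

section counting

variable {α β ι : Type*} [Fintype α] [DecidableEq α] [Fintype β] [DecidableEq β] [DecidableEq ι]

/-- Functions that differ from the target `w b` somewhere on the block `P b`, for each `b ∈ F`. -/
def bad (P : ι → Finset α) (w : ι → α → β) (F : Finset ι) : Finset (α → β) :=
  univ.filter fun h => ∀ b ∈ F, ∃ p ∈ P b, h p ≠ w b p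

theorem bad_card (P : ι → Finset α) (w : ι → α → β) (κ : ℕ) (hβ : 1 ≤ Fintype.card β)
    (F : Finset ι) : (∀ b ∈ F, (P b).card ≤ κ) →
    (∀ b ∈ F, ∀ b' ∈ F, b ≠ b' → Disjoint (P b) (P b')) →
    (bad P w F).card * (Fintype.card β ^ κ) ^ F.card ≤
      Fintype.card β ^ Fintype.card α * (Fintype.card β ^ κ - 1) ^ F.card := by
  induction F using Finset.induction_on with
  | empty =>
    intro _ _
    have h : (bad P w ∅).card ≤ Fintype.card (α → β) := Finset.card_le_univ _
    rw [Fintype.card_fun] at h
    simpa using h
  | insert b F hb ih =>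
    intro hP hdisj
    have ih' := ih (fun b' hb' => hP b' (mem_insert_of_mem hb'))
      (fun b' hb' b'' hb'' => hdisj b' (mem_insert_of_mem hb') b'' (mem_insert_of_mem hb''))
    set Q := Fintype.card β ^ κ with hQ
    have hQ1 : 1 ≤ Q := Nat.one_le_pow _ _ hβ
    -- the good part
    set G := (bad P w F).filter fun h => ∀ p ∈ P b, h p = w b p with hG
    have hsplit : (bad P w (insert b F)) = (bad P w F) \ G := by
      ext h
      simp only [bad, hG, mem_filter, mem_univ, true_and, mem_sdiff, mem_insert, forall_eq_or_imp,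
        not_and, not_forall]
      constructor
      · rintro ⟨⟨p, hp, hne⟩, h2⟩
        exact ⟨h2, fun _ => ⟨p, hp, hne⟩⟩
      · rintro ⟨h2, h3⟩
        obtain ⟨p, hp, hne⟩ := h3 h2
        exact ⟨⟨p, hp, hne⟩, h2⟩
    have hGsub : G ⊆ bad P w F := filter_subset _ _
    have hcard : (bad P w (insert b F)).card = (bad P w F).card - G.card := by
      rw [hsplit, card_sdiff_of_subset hGsub]
    have hGle : G.card ≤ (bad P w F).card := card_le_card hGsub
    have hkey : (bad P w F).card ≤ Q * G.card := by
      have hb1 : ∀ b' ∈ F, Disjoint (P b') (P b) := fun b' hb' =>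
        hdisj b' (mem_insert_of_mem hb') b (mem_insert_self _ _) (fun h => hb (h ▸ hb'))
      refine card_le_mul_card_image_of_maps_to
        (f := fun h p => if p ∈ P b then w b p else h p) ?_ Q ?_
      · intro h hh
        simp only [bad, mem_filter, mem_univ, true_and] at hh
        simp only [bad, hG, mem_filter, mem_univ, true_and]
        refine ⟨fun b' hb' => ?_, fun p hp => if_pos hp⟩
        obtain ⟨p, hp, hne⟩ := hh b' hb'
        refine ⟨p, hp, ?_⟩
        rw [if_neg (Finset.disjoint_left.1 (hb1 b' hb') hp)]
        exact hne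
      · intro h' _
        have h1 : ((bad P w F).filter fun h => (fun p => if p ∈ P b then w b p else h p) = h').card
            ≤ (univ : Finset (P b → β)).card := by
          refine card_le_card_of_injOn (fun h p => h p) (fun _ _ => mem_coe.2 (mem_univ _)) ?_
          intro h1 hh1 h2 hh2 heq
          have e1 := (mem_filter.1 hh1).2
          have e2 := (mem_filter.1 hh2).2
          funext p
          by_cases hp : p ∈ P b
          · exact congrFun heq ⟨p, hp⟩
          · have := congrFun (e1.trans e2.symm) p
            simpa [hp] using this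
        refine h1.trans ?_
        rw [card_univ, Fintype.card_fun, Fintype.card_coe, hQ]
        exact Nat.pow_le_pow_right hβ (hP b (mem_insert_self _ _))
    rw [hcard, card_insert_of_notMem hb]
    obtain ⟨x, hx⟩ : ∃ x, (bad P w F).card = G.card + x := ⟨_, (Nat.add_sub_of_le hGle).symm⟩
    obtain ⟨Q', hQ'⟩ : ∃ Q', Q = Q' + 1 := ⟨Q - 1, by omega⟩
    have h3 : x * Q ≤ (bad P w F).card * Q' := by
      rw [hx, hQ'] at hkey ⊢
      nlinarith
    have h4 : Q - 1 = Q' := by omega
    have h5 : (bad P w F).card - G.card = x := by omega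
    rw [h5]
    rw [h4] at ih' ⊢
    calc x * Q ^ (F.card + 1) = (x * Q) * Q ^ F.card := by ring
      _ ≤ ((bad P w F).card * Q') * Q ^ F.card := Nat.mul_le_mul_right _ h3
      _ = ((bad P w F).card * Q ^ F.card) * Q' := by ring
      _ ≤ (Fintype.card β ^ Fintype.card α * Q' ^ F.card) * Q' := Nat.mul_le_mul_right _ ih'
      _ = _ := by ring

end counting

/-- Greedy choice of pairwise disjoint blocks. -/
theorem exists_disjoint_family {α ι : Type*} [DecidableEq α] [DecidableEq ι]
    (P : ι → Finset α) (D : ℕ) (G : Finset ι) (hne : ∀ b ∈ G, (P b).Nonempty)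
    (hD : ∀ b' ∈ G, (G.filter fun b => ¬ Disjoint (P b) (P b')).card ≤ D) :
    ∃ M ⊆ G, (∀ b ∈ M, ∀ b' ∈ M, b ≠ b' → Disjoint (P b) (P b')) ∧ G.card ≤ M.card * D := by
  classical
  obtain ⟨M, hM, hmax⟩ := Finset.exists_max_image
    (G.powerset.filter fun M => ∀ b ∈ M, ∀ b' ∈ M, b ≠ b' → Disjoint (P b) (P b')) Finset.card
    ⟨∅, by simp⟩
  simp only [mem_filter, mem_powerset] at hM hmax
  refine ⟨M, hM.1, hM.2, ?_⟩
  have hcov : G ⊆ M.biUnion fun b' => G.filter fun b => ¬ Disjoint (P b) (P b') := by
    intro b hb
    rw [mem_biUnion]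
    by_contra hcon
    push Not at hcon
    simp only [mem_filter, not_and, not_not] at hcon
    have hbM : b ∉ M := by
      intro hbM
      have := hcon b hbM hb
      rw [disjoint_self] at this
      exact (hne b hb).ne_empty this
    have h1 := hmax (insert b M) ⟨insert_subset hb hM.1, ?_⟩
    · rw [card_insert_of_notMem hbM] at h1
      omega
    · intro x hx y hy hxy
      rw [mem_insert] at hx hy
      rcases hx with rfl | hx <;> rcases hy with rfl | hy
      · exact absurd rfl hxy
      · exact hcon y hy hb
      · exact (hcon x hx hb).symm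
      · exact hM.2 x hx y hy hxy
  calc G.card ≤ _ := card_le_card hcov
    _ ≤ M.card * D := card_biUnion_le_card_mul _ _ _ fun b' hb' => hD b' (hM.1 hb')

end Pool.Agent.Lib.MP_8cf036_co_h80
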