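import Pool.Agent.Lib.MP_8cf036_co_h80.Star

/-!
# Sets without stars are small
-/

set_option autoImplicit false
set_option linter.unusedSectionVars false

namespace Pool.Agent.Lib.MP_8cf036_co_h80

open Finset

section indep

variable {R : ℕ} {L A F : Type*} [DecidableEq L] [Fintype L] [AddCommGroup A] [DecidableEq A]
  [Fintype A] [AddCommGroup F] [DecidableEq F] [Fintype F]
  {ev : L → A →+ F} {g : Finset L → Finset L → L × Bool} {P : A → Bool} {𝓙 : Set (Finset L)}

/-- All but few words of `S` have many branching levels inside the fibre of the form `i`. -/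
theorem card_few_fibre (S : Finset (Fin R → A)) (i : L) (b : ℕ) :
    (S.filter fun c =>
      (Br (S.filter fun x => (fun l => ev i (x l)) = fun l => ev i (c l)) c).card ≤ b).card ≤
      Fintype.card A ^ b * Fintype.card F ^ R := by
  classical
  have h := card_le_mul_card_image_of_maps_to
    (s := S.filter fun c =>
      (Br (S.filter fun x => (fun l => ev i (x l)) = fun l => ev i (c l)) c).card ≤ b)
    (t := (univ : Finset (Fin R → F))) (f := fun c l => ev i (c l)) (fun _ _ => mem_univ _)
    (Fintype.card A ^ b) ?_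
  · rwa [card_univ, Fintype.card_fun, Fintype.card_fin] at h
  · intro y _
    refine le_trans (card_le_card ?_)
      (card_few_branch (S.filter fun x => (fun l => ev i (x l)) = y) b)
    intro c hc
    obtain ⟨hc1, hc2⟩ := mem_filter.1 hc
    obtain ⟨hcS, hcb⟩ := mem_filter.1 hc1
    rw [hc2] at hcb
    exact mem_filter.2 ⟨mem_filter.2 ⟨hcS, hc2⟩, hcb⟩

theorem exists_edge {K : ℕ} (hZ : ∀ d : A, d ≠ 0 → (Zs ev d).card ≤ K)
    (hres : ∀ (z : L → Finset L) (τ : L → Bool), (∀ i, i ∈ z i) → (∀ i, (z i).card ≤ K) →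
        ∃ J ∈ 𝓙, ∀ i ∈ J, ∀ j ∈ J, i ≠ j → g (z i) (z j) = (i, τ i))
    (S : Finset (Fin R → A))
    (hS : Fintype.card L * (Fintype.card A ^ (Fintype.card L * Fintype.card A) *
      Fintype.card F ^ R) < S.card) :
    ∃ e ⊆ S, ∃ c, Edge ev g P 𝓙 e c := by
  classical
  set b := Fintype.card L * Fintype.card A with hb
  -- a word with many branching levels for all labels
  obtain ⟨c, hcS, hc⟩ : ∃ c ∈ S, ∀ i : L,
      b < (Br (S.filter fun x => (fun l => ev i (x l)) = fun l => ev i (c l)) c).card := by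
    by_contra hcon
    push Not at hcon
    have h1 : S ⊆ (univ : Finset L).biUnion fun i => S.filter fun c =>
        (Br (S.filter fun x => (fun l => ev i (x l)) = fun l => ev i (c l)) c).card ≤ b := by
      intro c hc
      obtain ⟨i, hi⟩ := hcon c hc
      exact mem_biUnion.2 ⟨i, mem_univ _, mem_filter.2 ⟨hc, hi⟩⟩
    have h2 := (card_le_card h1).trans
      (card_biUnion_le_card_mul _ _ _ fun i _ => card_few_fibre S i b)
    rw [card_univ] at h2
    omega
  -- leaves and directions
  have hdir : ∀ i : L, ∃ δ : A, ∃ Λ : Finset (Fin R), Fintype.card L ≤ Λ.card ∧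
      ∀ l ∈ Λ, ∃ x ∈ S, (∀ l', ev i (x l') = ev i (c l')) ∧ DV c x l ∧ x l - c l = δ := by
    intro i
    have hx : ∀ l : Fin R, ∃ x : Fin R → A,
        l ∈ Br (S.filter fun x => (fun l => ev i (x l)) = fun l => ev i (c l)) c →
        x ∈ S ∧ (∀ l', ev i (x l') = ev i (c l')) ∧ DV c x l := by
      intro l
      by_cases hl : l ∈ Br (S.filter fun x => (fun l => ev i (x l)) = fun l => ev i (c l)) c
      · obtain ⟨x, hx, hd⟩ := mem_Br.1 hl
        obtain ⟨hxS, hxf⟩ := mem_filter.1 hx
        exact ⟨x, fun _ => ⟨hxS, fun l' => congrFun hxf l', hd⟩⟩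
      · exact ⟨c, fun h => absurd h hl⟩
    choose x hx using hx
    obtain ⟨δ, -, hδ⟩ := exists_le_card_fiber_of_mul_le_card_of_maps_to
      (s := Br (S.filter fun x => (fun l => ev i (x l)) = fun l => ev i (c l)) c)
      (t := (univ : Finset A)) (f := fun l => x l l - c l) (n := Fintype.card L)
      (fun _ _ => mem_univ _) ⟨0, mem_univ _⟩ (by
        rw [card_univ, mul_comm]
        exact (hc i).le)
    refine ⟨δ, _, hδ, ?_⟩
    intro l hl
    obtain ⟨hl1, hl2⟩ := mem_filter.1 hl
    obtain ⟨h1, h2, h3⟩ := hx l hl1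
    exact ⟨x l, h1, h2, h3, hl2⟩
  choose δ Λ hΛ hΛx using hdir
  -- distinct levels
  obtain ⟨ν, hνinj, hν⟩ := (Finset.all_card_le_biUnion_card_iff_exists_injective Λ).1 (by
    intro s
    rcases s.eq_empty_or_nonempty with rfl | ⟨i, hi⟩
    · simp
    · calc s.card ≤ Fintype.card L := card_le_univ _
        _ ≤ (Λ i).card := hΛ i
        _ ≤ _ := card_le_card (subset_biUnion_of_mem _ hi))
  choose r hrS hrf hrd hrδ using fun i => hΛx i (ν i) (hν i)
  obtain ⟨J, hJ, hdec⟩ := hres (fun i => Zs ev (δ i)) (fun i => P (δ i))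
    (by
      intro i
      refine mem_filter.2 ⟨mem_univ _, ?_⟩
      rw [← hrδ i, map_sub, hrf i, sub_self])
    (by
      intro i
      apply hZ
      rw [← hrδ i]
      exact sub_ne_zero.2 (Ne.symm (hrd i).2))
  refine ⟨insert c (J.image r), ?_, c, J, hJ, r, ν, ⟨fun i _ => hrd i,
    fun i _ j _ h => hνinj h, ?_⟩, rfl, fun i _ l => hrf i l⟩
  · intro x hx
    rcases mem_insert.1 hx with rfl | hx
    · exact hcS
    · obtain ⟨i, -, rfl⟩ := mem_image.1 hx
      exact hrS i
  · intro i hi j hj hij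
    rw [hrδ i, hrδ j]
    exact hdec i hi j hj hij

end indep

end Pool.Agent.Lib.MP_8cf036_co_h80
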