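import Pool.Agent.Lib.MP_8cf036_co_h80.Resil
import Pool.Agent.Lib.MP_8cf036_co_h80.Indep
import Pool.Agent.Lib.MP_8cf036_co_h19.Levels

/-!
# The constructions for all uniformities
-/

set_option autoImplicit false

namespace Pool.Agent.Lib.MP_8cf036_co_h80

open Finset Pool.Agent.Lib.MP_8cf036_co_h19

/-- The additive form `d ↦ ∑ j, x ^ j * d j`. -/
def form {K q : ℕ} (x : ZMod q) : (Fin K → ZMod q) →+ ZMod q :=
  AddMonoidHom.mk' (fun d => ∑ j : Fin K, x ^ (j : ℕ) * d j) (by
    intro d d'
    rw [← Finset.sum_add_distrib]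
    refine Finset.sum_congr rfl fun j _ => ?_
    simp [mul_add])

theorem form_apply {K q : ℕ} (x : ZMod q) (d : Fin K → ZMod q) :
    form x d = ∑ j : Fin K, x ^ (j : ℕ) * d j := rfl

theorem eq_zero_of_forms {K q : ℕ} [Fact q.Prime] {L : Type*} [DecidableEq L] {a : L → ZMod q}
    (ha : Function.Injective a) (J : Finset L) (hJ : J.card = K) (d : Fin K → ZMod q)
    (h : ∀ i ∈ J, form (a i) d = 0) : d = 0 := by
  have hinj : Function.Injective fun j : Fin K => a ((J.equivFinOfCardEq hJ).symm j : L) :=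
    ha.comp (Subtype.val_injective.comp (J.equivFinOfCardEq hJ).symm.injective)
  refine Matrix.eq_zero_of_forall_index_sum_pow_mul_eq_zero hinj fun j => ?_
  exact h _ ((J.equivFinOfCardEq hJ).symm j).2

theorem exists_sign {A : Type*} [Fintype A] [AddCommGroup A] :
    ∃ P : A → Bool, ∀ d : A, d ≠ -d → P (-d) ≠ P d := by
  classical
  let ι := Fintype.equivFin A
  refine ⟨fun d => decide (ι d < ι (-d)), ?_⟩
  intro d hd h
  have hne : ι d ≠ ι (-d) := fun h => hd (ι.injective h)
  simp only [neg_neg, decide_eq_decide] at h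
  rcases lt_or_gt_of_ne hne with h1 | h1
  · exact absurd (h.2 h1) (not_lt.2 h1.le)
  · exact absurd (h.1 h1) (not_lt.2 h1.le)

theorem construction_large (K : ℕ) (hK : 3 ≤ K) : ∃ A0 : ℕ, 1 ≤ A0 ∧ Construction (K + 1) A0 := by
  classical
  obtain ⟨L, instL, instD, 𝓙, g, hJc, hJ2, hres⟩ := resilience K (by omega)
  obtain ⟨q, hq, hprime⟩ := Nat.exists_infinite_primes (max (Fintype.card L) 3)
  have hq3 : 3 ≤ q := (le_max_right _ _).trans hq
  have hqL : Fintype.card L ≤ q := (le_max_left _ _).trans hq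
  have : Fact q.Prime := ⟨hprime⟩
  obtain ⟨a⟩ : Nonempty (L ↪ ZMod q) := by
    apply Function.Embedding.nonempty_of_card_le
    rw [ZMod.card]
    exact hqL
  let ev : L → (Fin K → ZMod q) →+ ZMod q := fun i => form (a i)
  obtain ⟨P, hP'⟩ := exists_sign (A := Fin K → ZMod q)
  have hP : ∀ d : Fin K → ZMod q, d ≠ 0 → P (-d) ≠ P d := by
    intro d hd
    apply hP'
    intro h
    apply hd
    funext j
    have h1 : d j = -d j := congrFun h j
    have h2 : (2 : ZMod q) * d j = 0 := by
      rw [two_mul]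
      nth_rewrite 2 [h1]
      exact add_neg_cancel _
    have h3 : (2 : ZMod q) ≠ 0 := by
      intro h
      have h4 : ((2 : ℕ) : ZMod q) = 0 := by exact_mod_cast h
      rw [ZMod.natCast_eq_zero_iff] at h4
      have := Nat.le_of_dvd (by norm_num) h4
      omega
    rcases mul_eq_zero.1 h2 with h | h
    · exact absurd h h3
    · exact h
  have hev : ∀ J ∈ 𝓙, ∀ d : Fin K → ZMod q, (∀ i ∈ J, ev i d = 0) → d = 0 :=
    fun J hJ d h => eq_zero_of_forms a.injective J (hJc J hJ) d h
  have hZ : ∀ d : Fin K → ZMod q, d ≠ 0 → (Zs ev d).card ≤ K := by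
    intro d hd
    by_contra hcon
    obtain ⟨J, hJ, hJK⟩ := exists_subset_card_eq (by omega : K ≤ (Zs ev d).card)
    exact hd (eq_zero_of_forms a.injective J hJK d fun i hi => (mem_filter.1 (hJ hi)).2)
  set b := Fintype.card L * Fintype.card (Fin K → ZMod q) with hb
  refine ⟨Fintype.card L * Fintype.card (Fin K → ZMod q) ^ b * q + 1, by omega, ?_⟩
  intro m
  have hsub : K + 1 - 1 = K := by omega
  obtain ⟨R, hR⟩ : ∃ R, R = Nat.log q m + 1 := ⟨_, rfl⟩
  have hmR : m ≤ q ^ R := by
    rw [hR]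
    exact (Nat.lt_pow_succ_log_self (by omega) m).le
  obtain ⟨φ⟩ : Nonempty ((Fin (K + 1 - 1) → Fin m) ↪ (Fin R → Fin K → ZMod q)) := by
    apply Function.Embedding.nonempty_of_card_le
    simp only [Fintype.card_fun, Fintype.card_fin, ZMod.card]
    rw [hsub, ← pow_mul, mul_comm K R, pow_mul]
    exact Nat.pow_le_pow_left hmR K
  refine ⟨fun e c => Edge ev g P 𝓙 (e.map φ) (φ c), ?_, ?_, ?_⟩
  · intro e c h
    refine ⟨?_, ?_⟩
    · have := h.mem
      rwa [mem_map' φ] at this
    · have := h.card hJc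
      rwa [card_map] at this
  · intro e e' c c' h h' hee
    apply φ.injective
    refine edge_centre hK hJc hJ2 hev hP h h' ?_
    rw [← map_inter, card_map]
    omega
  · intro S hS
    have hm0 : m ≠ 0 := by
      rintro rfl
      have h1 : S.card ≤ Fintype.card (Fin (K + 1 - 1) → Fin 0) := card_le_univ S
      have h2 : Fintype.card (Fin (K + 1 - 1) → Fin 0) = 0 := by
        simp only [Fintype.card_fun, Fintype.card_fin]
        exact zero_pow (by omega)
      omega
    have hqR : q ^ R ≤ q * m := by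
      rw [hR, pow_succ, mul_comm]
      exact Nat.mul_le_mul_left _ (Nat.pow_log_le_self q hm0)
    have hbig : Fintype.card L * (Fintype.card (Fin K → ZMod q) ^ b *
        Fintype.card (ZMod q) ^ R) < (S.map φ).card := by
      rw [card_map, ZMod.card]
      refine lt_of_le_of_lt ?_ hS
      calc Fintype.card L * (Fintype.card (Fin K → ZMod q) ^ b * q ^ R)
          ≤ Fintype.card L * (Fintype.card (Fin K → ZMod q) ^ b * (q * m)) :=
            Nat.mul_le_mul_left _ (Nat.mul_le_mul_left _ hqR)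
        _ = (Fintype.card L * Fintype.card (Fin K → ZMod q) ^ b * q) * m := by ring
        _ ≤ _ := Nat.mul_le_mul_right _ (Nat.le_succ _)
    obtain ⟨e', he', c', hc'⟩ := exists_edge (P := P) hZ hres (S.map φ) hbig
    obtain ⟨e, he, rfl⟩ := subset_map_iff.1 he'
    obtain ⟨c, -, rfl⟩ := mem_map.1 hc'.mem
    exact ⟨e, he, c, hc'⟩

/-- Uniformity three. -/
theorem construction_three : Construction 3 2 := by
  classical
  intro m
  change ∃ E : Finset (Fin 2 → Fin m) → (Fin 2 → Fin m) → Prop, _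
  let E : Finset (Fin 2 → Fin m) → (Fin 2 → Fin m) → Prop := fun e c =>
    ∃ x y : Fin 2 → Fin m, x 0 = c 0 ∧ c 1 < x 1 ∧ y 1 = c 1 ∧ c 0 < y 0 ∧ e = {c, x, y}
  have hmin : ∀ e c, E e c → ∀ u ∈ e, ∀ w ∈ e, u ≠ w →
      c 0 = min (u 0) (w 0) ∧ c 1 = min (u 1) (w 1) := by
    rintro e c ⟨x, y, h1, h2, h3, h4, rfl⟩ u hu w hw huw
    simp only [mem_insert, mem_singleton] at hu hw
    have h2' := h2.le
    have h4' := h4.le
    rcases hu with rfl | rfl | rfl <;> rcases hw with rfl | rfl | rfl <;>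
      first
      | exact absurd rfl huw
      | simp [h1, h3, h2', h4']
  refine ⟨E, ?_, ?_, ?_⟩
  · rintro e c ⟨x, y, h1, h2, h3, h4, rfl⟩
    have hcx : c ≠ x := fun h => absurd (h ▸ h2) (lt_irrefl _)
    have hcy : c ≠ y := fun h => absurd (h ▸ h4) (lt_irrefl _)
    have hxy : x ≠ y := by
      rintro rfl
      rw [h1] at h4
      exact lt_irrefl _ h4
    refine ⟨mem_insert_self _ _, ?_⟩
    rw [card_eq_three]
    exact ⟨c, x, y, hcx, hcy, hxy, rfl⟩
  · intro e e' c c' h h' hee
    obtain ⟨u, hu, w, hw, huw⟩ := one_lt_card.1 (lt_of_lt_of_le (by norm_num) hee)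
    rw [mem_inter] at hu hw
    obtain ⟨a1, a2⟩ := hmin e c h u hu.1 w hw.1 huw
    obtain ⟨b1, b2⟩ := hmin e' c' h' u hu.2 w hw.2 huw
    funext j
    fin_cases j
    · exact a1.trans b1.symm
    · exact a2.trans b2.symm
  · intro S hS
    change Finset (Fin 2 → Fin m) at S
    by_contra hcon
    push Not at hcon
    have hS' : 2 * m < S.card := hS
    have hcov : S ⊆ (S.filter fun c => ∀ x ∈ S, x 0 = c 0 → x 1 ≤ c 1) ∪
        (S.filter fun c => ∀ y ∈ S, y 1 = c 1 → y 0 ≤ c 0) := by
      intro c hc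
      by_contra h
      rw [mem_union, mem_filter, mem_filter, not_or, not_and, not_and] at h
      have h1 := h.1 hc
      have h2 := h.2 hc
      push Not at h1 h2
      obtain ⟨x, hx, hx0, hx1⟩ := h1
      obtain ⟨y, hy, hy1, hy0⟩ := h2
      refine hcon {c, x, y} ?_ c ⟨x, y, hx0, hx1, hy1, hy0, rfl⟩
      intro z hz
      simp only [mem_insert, mem_singleton] at hz
      rcases hz with rfl | rfl | rfl <;> assumption
    have c0 : (S.filter fun c => ∀ x ∈ S, x 0 = c 0 → x 1 ≤ c 1).card ≤ m := by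
      have : (S.filter fun c => ∀ x ∈ S, x 0 = c 0 → x 1 ≤ c 1).card ≤
          (univ : Finset (Fin m)).card := by
        refine card_le_card_of_injOn (fun c => c 0) (fun _ _ => mem_coe.2 (mem_univ _)) ?_
        intro c hc c' hc' h
        obtain ⟨hcS, h1⟩ := mem_filter.1 hc
        obtain ⟨hcS', h1'⟩ := mem_filter.1 hc'
        have h2 : c 0 = c' 0 := h
        have h3 := le_antisymm (h1' c hcS h2) (h1 c' hcS' h2.symm)
        funext j
        fin_cases j
        · exact h2
        · exact h3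
      simpa using this
    have c1 : (S.filter fun c => ∀ y ∈ S, y 1 = c 1 → y 0 ≤ c 0).card ≤ m := by
      have : (S.filter fun c => ∀ y ∈ S, y 1 = c 1 → y 0 ≤ c 0).card ≤
          (univ : Finset (Fin m)).card := by
        refine card_le_card_of_injOn (fun c => c 1) (fun _ _ => mem_coe.2 (mem_univ _)) ?_
        intro c hc c' hc' h
        obtain ⟨hcS, h1⟩ := mem_filter.1 hc
        obtain ⟨hcS', h1'⟩ := mem_filter.1 hc'
        have h2 : c 1 = c' 1 := h
        have h3 := le_antisymm (h1' c hcS h2) (h1 c' hcS' h2.symm)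
        funext j
        fin_cases j
        · exact h3
        · exact h2
      simpa using this
    have h1 := (card_le_card hcov).trans (card_union_le _ _)
    omega

/-- There is a construction for every uniformity `k ≥ 3`. -/
theorem construction_all (k : ℕ) (hk : 3 ≤ k) : ∃ A0 : ℕ, 1 ≤ A0 ∧ Construction k A0 := by
  rcases Nat.lt_or_ge 3 k with h | h
  · obtain ⟨A0, hA0, hcon⟩ := construction_large (k - 1) (by omega)
    rw [show k - 1 + 1 = k by omega] at hcon
    exact ⟨A0, hA0, hcon⟩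
  · obtain rfl : k = 3 := by omega
    exact ⟨2, by norm_num, construction_three⟩

end Pool.Agent.Lib.MP_8cf036_co_h80
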