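import Mathlib

/-!
# The numerical inequality behind the union bound
-/

set_option autoImplicit false

namespace Pool.Agent.Lib.MP_8cf036_co_h80

theorem lt_exp_two_sqrt {x : ℝ} (hx : 0 ≤ x) : x < Real.exp (2 * √x) := by
  have h1 : √x < Real.exp (√x) := by
    have := Real.add_one_le_exp (√x)
    linarith
  have h2 : Real.exp (2 * √x) = Real.exp (√x) * Real.exp (√x) := by
    rw [← Real.exp_add]; ring_nf
  have h3 : x = √x * √x := (Real.mul_self_sqrt hx).symm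
  rw [h2]
  calc x = √x * √x := h3
    _ < Real.exp (√x) * Real.exp (√x) :=
      mul_self_lt_mul_self (Real.sqrt_nonneg x) h1

theorem numeric (K Q : ℕ) (hK : 1 ≤ K) (hQ : 1 ≤ Q) :
    ∃ p : ℕ, p.Prime ∧ 2 * K ^ 3 ≤ p ∧
      ((K * p) ^ K * 2) ^ (K * p) * (Q - 1) ^ (p ^ 2 / (2 * K ^ 6)) < Q ^ (p ^ 2 / (2 * K ^ 6)) := by
  obtain ⟨p, hp, hprime⟩ := Nat.exists_infinite_primes (128 * K ^ 17 * Q ^ 2)
  have hp1 : 2 * K ^ 3 ≤ p := by
    refine le_trans ?_ hp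
    calc 2 * K ^ 3 ≤ 128 * K ^ 17 := Nat.mul_le_mul (by norm_num) (Nat.pow_le_pow_right hK (by norm_num))
      _ ≤ 128 * K ^ 17 * Q ^ 2 := Nat.le_mul_of_pos_right _ (by positivity)
  refine ⟨p, hprime, hp1, ?_⟩
  obtain ⟨m, hm⟩ : ∃ m, m = p ^ 2 / (2 * K ^ 6) := ⟨_, rfl⟩
  rw [← hm]
  have hKr : (1 : ℝ) ≤ K := by exact_mod_cast hK
  have hQr : (1 : ℝ) ≤ Q := by exact_mod_cast hQ
  have hpr : (128 : ℝ) * K ^ 17 * Q ^ 2 ≤ p := by exact_mod_cast hp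
  have hp0 : (0 : ℝ) < p := by exact_mod_cast hprime.pos
  -- lower bound for m
  have hmlow : (p : ℝ) ^ 2 ≤ 4 * K ^ 6 * m := by
    have h1 : p ^ 2 < 2 * K ^ 6 * (m + 1) := by
      rw [hm]
      exact Nat.lt_mul_div_succ _ (by positivity)
    have h2 : 4 * K ^ 6 ≤ p ^ 2 := by
      calc 4 * K ^ 6 = (2 * K ^ 3) ^ 2 := by ring
        _ ≤ p ^ 2 := Nat.pow_le_pow_left hp1 2
    have h3 : p ^ 2 ≤ 4 * K ^ 6 * m := by
      have : 2 * K ^ 6 * (m + 1) = 2 * K ^ 6 * m + 2 * K ^ 6 := by ring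
      have h4 : 4 * K ^ 6 * m = 2 * (2 * K ^ 6 * m) := by ring
      omega
    exact_mod_cast h3
  -- (Q-1)^m ≤ Q^m exp(-m/Q)
  have hA : ((Q - 1 : ℕ) : ℝ) ^ m ≤ (Q : ℝ) ^ m * Real.exp (-(m / Q : ℝ)) := by
    have h1 : ((Q - 1 : ℕ) : ℝ) ≤ Q * Real.exp (-(1 / Q : ℝ)) := by
      rw [Nat.cast_sub hQ]
      have h2 := Real.add_one_le_exp (-(1 / Q : ℝ))
      have h3 : (Q : ℝ) * (-(1 / Q) + 1) ≤ Q * Real.exp (-(1 / Q : ℝ)) :=
        mul_le_mul_of_nonneg_left h2 (by linarith)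
      have h4 : (Q : ℝ) * (-(1 / Q) + 1) = Q - 1 := by
        field_simp
        ring
      rw [h4] at h3
      simpa using h3
    calc ((Q - 1 : ℕ) : ℝ) ^ m ≤ (Q * Real.exp (-(1 / Q : ℝ))) ^ m :=
          pow_le_pow_left₀ (by positivity) h1 m
      _ = (Q : ℝ) ^ m * Real.exp (-(m / Q : ℝ)) := by
          rw [mul_pow, ← Real.exp_nat_mul]
          congr 2
          ring
  -- the number of choices
  have hB : (((K : ℝ) * p) ^ K * 2) ^ (K * p) < Real.exp (m / Q : ℝ) := by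
    have hx0 : (0 : ℝ) ≤ 2 * K * p := by positivity
    have h1 : ((K : ℝ) * p) ^ K * 2 ≤ (2 * K * p) ^ K := by
      have : (2 * (K : ℝ) * p) ^ K = 2 ^ K * ((K : ℝ) * p) ^ K := by rw [← mul_pow]; ring_nf
      rw [this, mul_comm]
      refine mul_le_mul_of_nonneg_right ?_ (by positivity)
      calc (2 : ℝ) = 2 ^ 1 := by norm_num
        _ ≤ 2 ^ K := pow_le_pow_right₀ (by norm_num) hK
    have h2 : (2 * (K : ℝ) * p) ^ K < Real.exp (2 * √(2 * K * p) * K) := by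
      have := pow_lt_pow_left₀ (lt_exp_two_sqrt hx0) hx0 (by omega : K ≠ 0)
      rw [← Real.exp_nat_mul] at this
      calc _ < _ := this
        _ = _ := by congr 1; ring
    have h3 : (((K : ℝ) * p) ^ K * 2) ^ (K * p) < Real.exp (2 * √(2 * K * p) * K * (K * p)) := by
      have h4 := pow_lt_pow_left₀ (h1.trans_lt h2) (by positivity)
        (Nat.mul_ne_zero (by omega) hprime.pos.ne' : K * p ≠ 0)
      rw [← Real.exp_nat_mul] at h4
      calc _ < _ := h4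
        _ = _ := by congr 1; push_cast; ring
    refine h3.trans_le (Real.exp_le_exp.2 ?_)
    rw [le_div_iff₀ (by linarith)]
    -- 2 √(2Kp) K (Kp) Q ≤ m
    have h5 : √(2 * K * p) * (8 * K ^ 8 * Q) ≤ p := by
      have h6 : (√(2 * K * p) * (8 * K ^ 8 * Q)) ^ 2 ≤ (p : ℝ) ^ 2 := by
        rw [mul_pow, Real.sq_sqrt hx0]
        calc 2 * (K : ℝ) * (p : ℝ) * (8 * (K : ℝ) ^ 8 * (Q : ℝ)) ^ 2
            = (p : ℝ) * (128 * (K : ℝ) ^ 17 * (Q : ℝ) ^ 2) := by ring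
          _ ≤ (p : ℝ) * p := mul_le_mul_of_nonneg_left hpr hp0.le
          _ = (p : ℝ) ^ 2 := by ring
      exact le_of_sq_le_sq h6 hp0.le
    have h7 : (0 : ℝ) < 4 * K ^ 6 := by positivity
    have h8 : 2 * √(2 * K * p) * K * (K * p) * Q * (4 * (K : ℝ) ^ 6) ≤ m * (4 * (K : ℝ) ^ 6) := by
      calc 2 * √(2 * K * p) * (K : ℝ) * ((K : ℝ) * (p : ℝ)) * (Q : ℝ) * (4 * (K : ℝ) ^ 6)
          = (√(2 * K * p) * (8 * (K : ℝ) ^ 8 * (Q : ℝ))) * (p : ℝ) := by ring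
        _ ≤ (p : ℝ) * p := mul_le_mul_of_nonneg_right h5 hp0.le
        _ = (p : ℝ) ^ 2 := by ring
        _ ≤ 4 * (K : ℝ) ^ 6 * (m : ℝ) := hmlow
        _ = (m : ℝ) * (4 * (K : ℝ) ^ 6) := by ring
    exact le_of_mul_le_mul_right h8 h7
  have hfin : (((K : ℝ) * p) ^ K * 2) ^ (K * p) * ((Q - 1 : ℕ) : ℝ) ^ m < (Q : ℝ) ^ m := by
    have hQm : (0 : ℝ) < (Q : ℝ) ^ m := by positivity
    calc (((K : ℝ) * p) ^ K * 2) ^ (K * p) * ((Q - 1 : ℕ) : ℝ) ^ m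
        ≤ (((K : ℝ) * p) ^ K * 2) ^ (K * p) * ((Q : ℝ) ^ m * Real.exp (-(m / Q : ℝ))) :=
          mul_le_mul_of_nonneg_left hA (by positivity)
      _ < Real.exp (m / Q : ℝ) * ((Q : ℝ) ^ m * Real.exp (-(m / Q : ℝ))) :=
          mul_lt_mul_of_pos_right hB (by positivity)
      _ = (Q : ℝ) ^ m := by
          rw [mul_left_comm, ← Real.exp_add]
          simp
  exact_mod_cast hfin

end Pool.Agent.Lib.MP_8cf036_co_h80
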