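import Pool.Agent.Lib.MP_8cf036_co_h80.Counting
import Pool.Agent.Lib.MP_8cf036_co_h80.Numeric

/-!
# Resilient decoding

There is a finite label set `L`, a family of `K`-subsets of `L` any two of which share at most one
element, and a map `g` on pairs of subsets such that for every assignment of small sets `z i ∋ i`
and signs `τ i` some block `J` is decoded correctly: `g (z i) (z j) = (i, τ i)` for all distinct
`i, j ∈ J`.
-/

set_option autoImplicit false

namespace Pool.Agent.Lib.MP_8cf036_co_h80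

open Finset

/-- the label set -/
abbrev Lab (K p : ℕ) := Fin K × ZMod p

/-- the `a`-th point of the line `b` -/
def pt {K p : ℕ} (b : ZMod p × ZMod p) (a : Fin K) : Lab K p := (a, b.1 + ((a : ℕ) : ZMod p) * b.2)

theorem pt_injective {K p : ℕ} (b : ZMod p × ZMod p) : Function.Injective (pt b : Fin K → Lab K p) :=
  fun _ _ h => congrArg Prod.fst h

theorem pt_inj {K p : ℕ} [Fact p.Prime] (hKp : K ≤ p) {a c : Fin K} (hac : a ≠ c)
    {b b' : ZMod p × ZMod p} (h1 : pt b a = pt b' a) (h2 : pt b c = pt b' c) : b = b' := by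
  have e1 : b.1 + ((a : ℕ) : ZMod p) * b.2 = b'.1 + ((a : ℕ) : ZMod p) * b'.2 :=
    congrArg Prod.snd h1
  have e2 : b.1 + ((c : ℕ) : ZMod p) * b.2 = b'.1 + ((c : ℕ) : ZMod p) * b'.2 :=
    congrArg Prod.snd h2
  have hne : ((a : ℕ) : ZMod p) - ((c : ℕ) : ZMod p) ≠ 0 := by
    intro h
    rw [sub_eq_zero, ZMod.natCast_eq_natCast_iff', Nat.mod_eq_of_lt (by omega),
      Nat.mod_eq_of_lt (by omega)] at h
    exact hac (Fin.ext h)
  have e3 : (((a : ℕ) : ZMod p) - ((c : ℕ) : ZMod p)) * (b.2 - b'.2) = 0 := by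
    linear_combination e1 - e2
  have e4 : b.2 = b'.2 := by
    rcases mul_eq_zero.1 e3 with h | h
    · exact absurd h hne
    · exact sub_eq_zero.1 h
  have e5 : b.1 = b'.1 := by
    rw [e4] at e1
    exact add_right_cancel e1
  exact Prod.ext e5 e4

theorem exists_enum {L : Type*} [DecidableEq L] [Nonempty L] (K : ℕ) (z : Finset L) :
    ∃ f : Fin K → L, z.Nonempty → z.card ≤ K → univ.image f = z := by
  classical
  by_cases hz : z.Nonempty
  · by_cases hc : z.card ≤ K
    · obtain ⟨f⟩ : Nonempty (z ↪ Fin K) := by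
        apply Function.Embedding.nonempty_of_card_le
        simpa using hc
      have : Nonempty z := hz.to_subtype
      refine ⟨fun j => (Function.invFun f j : z), fun _ _ => ?_⟩
      ext i
      simp only [mem_image, mem_univ, true_and]
      constructor
      · rintro ⟨j, rfl⟩
        exact (Function.invFun f j).2
      · intro hi
        exact ⟨f ⟨i, hi⟩, by rw [Function.leftInverse_invFun f.injective]⟩
    · exact ⟨fun _ => Classical.arbitrary L, fun _ h => absurd h hc⟩
  · exact ⟨fun _ => Classical.arbitrary L, fun h => absurd h hz⟩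

section single

variable {K p : ℕ} [Fact p.Prime]

/-- the pairs of sets seen on the line `b` -/
def PP (z : Lab K p → Finset (Lab K p)) (b : ZMod p × ZMod p) :
    Finset (Finset (Lab K p) × Finset (Lab K p)) :=
  (univ.filter fun ac : Fin K × Fin K => ac.1 ≠ ac.2).image fun ac => (z (pt b ac.1), z (pt b ac.2))

/-- the lines on which no label is confused with another one -/
def GoodL (z : Lab K p → Finset (Lab K p)) : Finset (ZMod p × ZMod p) :=
  univ.filter fun b => ∀ a c : Fin K, a ≠ c → pt b c ∉ z (pt b a)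

theorem card_GoodL (hKp : 2 * K ^ 3 ≤ p) (hK : 1 ≤ K) (z : Lab K p → Finset (Lab K p))
    (hz : ∀ i, (z i).card ≤ K) : p ^ 2 ≤ 2 * (GoodL z).card := by
  classical
  have hKp' : K ≤ p := by
    refine le_trans ?_ hKp
    calc K = K ^ 1 := (pow_one K).symm
      _ ≤ K ^ 3 := Nat.pow_le_pow_right hK (by norm_num)
      _ ≤ 2 * K ^ 3 := by omega
  have h1 : (univ.filter fun b : ZMod p × ZMod p =>
      ¬ ∀ a c : Fin K, a ≠ c → pt b c ∉ z (pt b a)) ⊆
      (univ : Finset (Fin K × Fin K)).biUnion fun ac =>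
        univ.filter fun b => ac.1 ≠ ac.2 ∧ pt b ac.2 ∈ z (pt b ac.1) := by
    intro b hb
    simp only [mem_filter, mem_univ, true_and, not_forall, not_not, mem_biUnion] at hb ⊢
    obtain ⟨a, c, hac, h⟩ := hb
    exact ⟨(a, c), hac, h⟩
  have h2 : ∀ ac : Fin K × Fin K, (univ.filter fun b : ZMod p × ZMod p =>
      ac.1 ≠ ac.2 ∧ pt b ac.2 ∈ z (pt b ac.1)).card ≤ K * p := by
    rintro ⟨a, c⟩
    by_cases hac : a = c
    · simp [hac]
    have h3 : (univ.filter fun b : ZMod p × ZMod p => a ≠ c ∧ pt b c ∈ z (pt b a)).card ≤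
        K * (univ : Finset (ZMod p)).card := by
      refine card_le_mul_card_image_of_maps_to (f := fun b => (pt b a : Lab K p).2)
        (fun _ _ => mem_univ _) K ?_
      intro x _
      refine le_trans ?_ (hz (a, x))
      refine card_le_card_of_injOn (fun b => pt b c) ?_ ?_
      · intro b hb
        obtain ⟨hb1, hb2⟩ := mem_filter.1 hb
        have h4 : pt b a = (a, x) := Prod.ext rfl hb2
        have h5 := (mem_filter.1 hb1).2.2
        rw [h4] at h5
        exact h5
      · intro b hb b' hb' h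
        obtain ⟨hb1, hb2⟩ := mem_filter.1 hb
        obtain ⟨hb1', hb2'⟩ := mem_filter.1 hb'
        exact pt_inj hKp' hac (Prod.ext rfl (hb2.trans hb2'.symm)) h
    rw [card_univ, ZMod.card] at h3
    exact h3
  have h3 := (card_le_card h1).trans (card_biUnion_le_card_mul _ _ _ fun ac _ => h2 ac)
  have h4 := Finset.card_filter_add_card_filter_not (s := (univ : Finset (ZMod p × ZMod p)))
    (fun b => ∀ a c : Fin K, a ≠ c → pt b c ∉ z (pt b a))
  rw [card_univ, Fintype.card_prod, ZMod.card] at h4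
  rw [card_univ, Fintype.card_prod, Fintype.card_fin] at h3
  have h5 : 2 * (K * K * (K * p)) ≤ p ^ 2 := by
    calc 2 * (K * K * (K * p)) = (2 * K ^ 3) * p := by ring
      _ ≤ p * p := Nat.mul_le_mul_right _ hKp
      _ = p ^ 2 := by ring
  have h6 : p * p = p ^ 2 := by ring
  unfold GoodL
  omega

theorem card_conflict (hKp : K ≤ p) (z : Lab K p → Finset (Lab K p))
    (hself : ∀ i, i ∈ z i) (hz : ∀ i, (z i).card ≤ K) (G : Finset (ZMod p × ZMod p))
    (b' : ZMod p × ZMod p) :
    (G.filter fun b => ¬ Disjoint (PP z b) (PP z b')).card ≤ K ^ 6 := by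
  classical
  have h1 : (G.filter fun b => ¬ Disjoint (PP z b) (PP z b')) ⊆
      (univ : Finset ((Fin K × Fin K) × (Fin K × Fin K))).biUnion fun q =>
        univ.filter fun b => q.1.1 ≠ q.1.2 ∧ pt b q.1.1 ∈ z (pt b' q.2.1) ∧
          pt b q.1.2 ∈ z (pt b' q.2.2) := by
    intro b hb
    have hb2 := (mem_filter.1 hb).2
    rw [not_disjoint_iff] at hb2
    obtain ⟨y, hy, hy'⟩ := hb2
    simp only [PP, mem_image, mem_filter, mem_univ, true_and] at hy hy'
    obtain ⟨ac, hac, rfl⟩ := hy
    obtain ⟨ac', hac', h⟩ := hy'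
    have e1 : z (pt b' ac'.1) = z (pt b ac.1) := congrArg Prod.fst h
    have e2 : z (pt b' ac'.2) = z (pt b ac.2) := congrArg Prod.snd h
    simp only [mem_biUnion, mem_univ, true_and, mem_filter]
    exact ⟨(ac, ac'), hac, e1 ▸ hself _, e2 ▸ hself _⟩
  have h2 : ∀ q : (Fin K × Fin K) × (Fin K × Fin K), (univ.filter fun b : ZMod p × ZMod p =>
      q.1.1 ≠ q.1.2 ∧ pt b q.1.1 ∈ z (pt b' q.2.1) ∧ pt b q.1.2 ∈ z (pt b' q.2.2)).card ≤
        K * K := by
    intro q
    by_cases hq : q.1.1 = q.1.2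
    · simp [hq]
    calc _ ≤ ((z (pt b' q.2.1)) ×ˢ (z (pt b' q.2.2))).card := by
          refine card_le_card_of_injOn (fun b => (pt b q.1.1, pt b q.1.2)) ?_ ?_
          · intro b hb
            have := (mem_filter.1 hb).2
            exact mem_product.2 ⟨this.2.1, this.2.2⟩
          · intro b _ b'' _ h
            exact pt_inj hKp hq (congrArg Prod.fst h) (congrArg Prod.snd h)
      _ ≤ K * K := by
          rw [card_product]
          exact Nat.mul_le_mul (hz _) (hz _)
  have h3 := (card_le_card h1).trans (card_biUnion_le_card_mul _ _ _ fun ac _ => h2 ac)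
  refine h3.trans (le_of_eq ?_)
  rw [card_univ]
  simp only [Fintype.card_prod, Fintype.card_fin]
  ring

/-- For a fixed assignment `(z, τ)`, few maps `h` decode every line incorrectly. -/
theorem card_bad_single (hK : 2 ≤ K) (hKp : 2 * K ^ 3 ≤ p)
    (e : Finset (Lab K p) → Fin K → Lab K p)
    (he : ∀ z : Finset (Lab K p), z.Nonempty → z.card ≤ K → univ.image (e z) = z)
    (z : Lab K p → Finset (Lab K p)) (τ : Lab K p → Bool)
    (hself : ∀ i, i ∈ z i) (hz : ∀ i, (z i).card ≤ K) :
    (univ.filter fun h : Finset (Lab K p) × Finset (Lab K p) → Fin K × Bool =>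
      ∀ b : ZMod p × ZMod p, ∃ a c : Fin K, a ≠ c ∧
        ¬ (e (z (pt b a)) (h (z (pt b a), z (pt b c))).1 = pt b a ∧
          (h (z (pt b a), z (pt b c))).2 = τ (pt b a))).card *
      ((K * 2) ^ (K * K)) ^ (p ^ 2 / (2 * K ^ 6)) ≤
    (K * 2) ^ Fintype.card (Finset (Lab K p) × Finset (Lab K p)) *
      ((K * 2) ^ (K * K) - 1) ^ (p ^ 2 / (2 * K ^ 6)) := by
  classical
  have hKp' : K ≤ p := by
    refine le_trans ?_ hKp
    calc K = K ^ 1 := (pow_one K).symm
      _ ≤ K ^ 3 := Nat.pow_le_pow_right (by omega) (by norm_num)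
      _ ≤ 2 * K ^ 3 := by omega
  -- index of a label in its own set
  have hidx : ∀ i, ∃ j, e (z i) j = i := by
    intro i
    have h := he (z i) ⟨i, hself i⟩ (hz i)
    have hi := hself i
    rw [← h] at hi
    obtain ⟨j, -, hj⟩ := mem_image.1 hi
    exact ⟨j, hj⟩
  choose idx hidx' using hidx
  obtain ⟨M, hMG, hMd, hMc⟩ := exists_disjoint_family (PP z) (K ^ 6) (GoodL z)
    (by
      intro b _
      have h0 : (⟨0, by omega⟩ : Fin K) ≠ ⟨1, by omega⟩ := by
        intro h
        have := congrArg Fin.val h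
        simp at this
      exact ⟨_, mem_image_of_mem _ (mem_filter.2 ⟨mem_univ ((⟨0, by omega⟩ : Fin K), (⟨1, by omega⟩ : Fin K)), h0⟩)⟩)
    (fun b' _ => card_conflict hKp' z hself hz _ b')
  have hgood := card_GoodL hKp (by omega) z hz
  have hm : p ^ 2 / (2 * K ^ 6) ≤ M.card := by
    apply Nat.div_le_of_le_mul
    calc p ^ 2 ≤ 2 * (GoodL z).card := hgood
      _ ≤ 2 * (M.card * K ^ 6) := Nat.mul_le_mul_left _ hMc
      _ = 2 * K ^ 6 * M.card := by ring
  obtain ⟨M', hM'M, hM'c⟩ := exists_subset_card_eq hm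
  -- the target function
  let w : ZMod p × ZMod p → Finset (Lab K p) × Finset (Lab K p) → Fin K × Bool := fun b q =>
    if h : ∃ a : Fin K, q.1 = z (pt b a) then (idx (pt b h.choose), τ (pt b h.choose))
    else (⟨0, by omega⟩, false)
  have hw : ∀ b ∈ GoodL z, ∀ a c : Fin K,
      w b (z (pt b a), z (pt b c)) = (idx (pt b a), τ (pt b a)) := by
    intro b hb a c
    have h : ∃ a' : Fin K, (z (pt b a), z (pt b c)).1 = z (pt b a') := ⟨a, rfl⟩
    have h2 : h.choose = a := by
      by_contra hne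
      have h3 := (mem_filter.1 hb).2 a h.choose (fun h => hne h.symm)
      apply h3
      have h4 := h.choose_spec
      change z (pt b a) = _ at h4
      have h5 := hself (pt b h.choose)
      rw [← h4] at h5
      exact h5
    simp only [w]
    rw [dif_pos h, h2]
  have hbad := bad_card (PP z) w (K * K) (β := Fin K × Bool) (by
      simp only [Fintype.card_prod, Fintype.card_fin, Fintype.card_bool]; omega) M'
    (by
      intro b _
      refine card_image_le.trans ((card_filter_le _ _).trans ?_)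
      simp)
    (fun b hb b' hb' => hMd b (hM'M hb) b' (hM'M hb'))
  rw [hM'c] at hbad
  simp only [Fintype.card_prod, Fintype.card_fin, Fintype.card_bool] at hbad ⊢
  refine le_trans (Nat.mul_le_mul_right _ (card_le_card ?_)) hbad
  intro h hh
  simp only [mem_filter, mem_univ, true_and, bad] at hh ⊢
  intro b hb
  obtain ⟨a, c, hac, hne⟩ := hh b
  refine ⟨(z (pt b a), z (pt b c)), mem_image_of_mem _ (mem_filter.2 ⟨mem_univ (a, c), hac⟩), ?_⟩
  rw [hw b (hMG (hM'M hb)) a c]
  intro heq
  apply hne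
  rw [heq]
  exact ⟨hidx' _, rfl⟩

end single

theorem resilience (K : ℕ) (hK : 2 ≤ K) :
    ∃ (L : Type) (_ : Fintype L) (_ : DecidableEq L) (𝓙 : Set (Finset L))
      (g : Finset L → Finset L → L × Bool),
      (∀ J ∈ 𝓙, J.card = K) ∧
      (∀ J ∈ 𝓙, ∀ J' ∈ 𝓙, ∀ i ∈ J, ∀ j ∈ J, i ≠ j → i ∈ J' → j ∈ J' → J = J') ∧
      ∀ (z : L → Finset L) (τ : L → Bool), (∀ i, i ∈ z i) → (∀ i, (z i).card ≤ K) →
        ∃ J ∈ 𝓙, ∀ i ∈ J, ∀ j ∈ J, i ≠ j → g (z i) (z j) = (i, τ i) := by
  classical
  obtain ⟨p, hprime, hKp, hnum⟩ := numeric K ((K * 2) ^ (K * K)) (by omega)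
    (Nat.one_le_pow _ _ (by omega))
  have : Fact p.Prime := ⟨hprime⟩
  have hKp' : K ≤ p := by
    refine le_trans ?_ hKp
    calc K = K ^ 1 := (pow_one K).symm
      _ ≤ K ^ 3 := Nat.pow_le_pow_right (by omega) (by norm_num)
      _ ≤ 2 * K ^ 3 := by omega
  have : Nonempty (Lab K p) := ⟨(⟨0, by omega⟩, 0)⟩
  choose e he using exists_enum (L := Lab K p) K
  -- it is enough to find `h`
  suffices hh : ∃ h : Finset (Lab K p) × Finset (Lab K p) → Fin K × Bool,
      ∀ (z : Lab K p → Finset (Lab K p)) (τ : Lab K p → Bool), (∀ i, i ∈ z i) →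
        (∀ i, (z i).card ≤ K) → ∃ b : ZMod p × ZMod p, ∀ a c : Fin K, a ≠ c →
          (e (z (pt b a)) (h (z (pt b a), z (pt b c))).1 = pt b a ∧
          (h (z (pt b a), z (pt b c))).2 = τ (pt b a)) by
    obtain ⟨h, hh⟩ := hh
    refine ⟨Lab K p, inferInstance, inferInstance,
      Set.range fun b : ZMod p × ZMod p => univ.image (pt b),
      fun y y' => (e y (h (y, y')).1, (h (y, y')).2), ?_, ?_, ?_⟩
    · rintro J ⟨b, rfl⟩
      rw [card_image_of_injective _ (pt_injective b), card_univ, Fintype.card_fin]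
    · rintro J ⟨b, rfl⟩ J' ⟨b', rfl⟩ i hi j hj hij hi' hj'
      simp only [mem_image, mem_univ, true_and] at hi hj hi' hj'
      obtain ⟨a, rfl⟩ := hi
      obtain ⟨c, rfl⟩ := hj
      obtain ⟨a', ha'⟩ := hi'
      obtain ⟨c', hc'⟩ := hj'
      have e1 : a' = a := congrArg Prod.fst ha'
      have e2 : c' = c := congrArg Prod.fst hc'
      subst e1 e2
      have hac : a' ≠ c' := fun h => hij (h ▸ rfl)
      rw [pt_inj hKp' hac ha' hc']
    · intro z τ hself hz
      obtain ⟨b, hb⟩ := hh z τ hself hz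
      refine ⟨_, ⟨b, rfl⟩, ?_⟩
      intro i hi j hj hij
      simp only [mem_image, mem_univ, true_and] at hi hj
      obtain ⟨a, rfl⟩ := hi
      obtain ⟨c, rfl⟩ := hj
      have hac : a ≠ c := fun h => hij (h ▸ rfl)
      exact Prod.ext (hb a c hac).1 (hb a c hac).2
  by_contra hcon
  push Not at hcon
  -- the bad maps for the assignment coded by `w`
  let zz : (Lab K p → (Fin K → Lab K p) × Bool) → Lab K p → Finset (Lab K p) :=
    fun w i => univ.image (w i).1
  let B : (Lab K p → (Fin K → Lab K p) × Bool) →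
      Finset (Finset (Lab K p) × Finset (Lab K p) → Fin K × Bool) := fun w =>
    univ.filter fun h => ∀ b : ZMod p × ZMod p, ∃ a c : Fin K, a ≠ c ∧
        ¬ (e (zz w (pt b a)) (h (zz w (pt b a), zz w (pt b c))).1 = pt b a ∧
          (h (zz w (pt b a), zz w (pt b c))).2 = (w (pt b a)).2)
  let Wv : Finset (Lab K p → (Fin K → Lab K p) × Bool) := univ.filter fun w => ∀ i, i ∈ zz w i
  have hcov : (univ : Finset (Finset (Lab K p) × Finset (Lab K p) → Fin K × Bool)) ⊆
      Wv.biUnion B := by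
    intro h _
    obtain ⟨z, τ, hself, hz, hbad⟩ := hcon h
    have hzz : zz (fun i => (e (z i), τ i)) = z := by
      funext i
      exact he (z i) ⟨i, hself i⟩ (hz i)
    refine mem_biUnion.2 ⟨fun i => (e (z i), τ i), mem_filter.2 ⟨mem_univ _, ?_⟩,
      mem_filter.2 ⟨mem_univ _, ?_⟩⟩
    · rw [hzz]
      exact hself
    · rw [hzz]
      intro b
      obtain ⟨a, c, hac, h1⟩ := hbad b
      exact ⟨a, c, hac, fun h2 => h1 h2.1 h2.2⟩
  set Q := (K * 2) ^ (K * K) with hQ
  set m := p ^ 2 / (2 * K ^ 6) with hm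
  have h1 : Fintype.card (Finset (Lab K p) × Finset (Lab K p) → Fin K × Bool) ≤
      ∑ w ∈ Wv, (B w).card := by
    rw [← card_univ]
    exact (card_le_card hcov).trans card_biUnion_le
  have h2 : ∀ w ∈ Wv, (B w).card * Q ^ m ≤
      (K * 2) ^ Fintype.card (Finset (Lab K p) × Finset (Lab K p)) * (Q - 1) ^ m := by
    intro w hw
    exact card_bad_single hK hKp e he (zz w) (fun i => (w i).2) (mem_filter.1 hw).2
      (fun i => by
        refine card_image_le.trans ?_
        simp)
  rw [Fintype.card_fun, Fintype.card_prod (Fin K) Bool, Fintype.card_fin, Fintype.card_bool] at h1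
  have h3 : (K * 2) ^ Fintype.card (Finset (Lab K p) × Finset (Lab K p)) * Q ^ m ≤
      Wv.card * ((K * 2) ^ Fintype.card (Finset (Lab K p) × Finset (Lab K p)) * (Q - 1) ^ m) := by
    calc _ ≤ (∑ w ∈ Wv, (B w).card) * Q ^ m := Nat.mul_le_mul_right _ h1
      _ = ∑ w ∈ Wv, (B w).card * Q ^ m := sum_mul _ _ _
      _ ≤ ∑ w ∈ Wv, (K * 2) ^ Fintype.card (Finset (Lab K p) × Finset (Lab K p)) * (Q - 1) ^ m :=
        sum_le_sum h2
      _ = _ := by rw [sum_const, smul_eq_mul]
  have h4 : Wv.card ≤ ((K * p) ^ K * 2) ^ (K * p) := by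
    refine (card_le_univ _).trans (le_of_eq ?_)
    simp [Fintype.card_prod, ZMod.card]
  have h5 : 0 < (K * 2) ^ Fintype.card (Finset (Lab K p) × Finset (Lab K p)) := by positivity
  have h6 : (K * 2) ^ Fintype.card (Finset (Lab K p) × Finset (Lab K p)) * Q ^ m ≤
      (K * 2) ^ Fintype.card (Finset (Lab K p) × Finset (Lab K p)) *
        (((K * p) ^ K * 2) ^ (K * p) * (Q - 1) ^ m) := by
    refine h3.trans ?_
    rw [mul_left_comm]
    exact Nat.mul_le_mul_left _ (Nat.mul_le_mul_right _ h4)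
  have h7 := Nat.le_of_mul_le_mul_left h6 h5
  omega

end Pool.Agent.Lib.MP_8cf036_co_h80
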