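import Pool.Agent.Lib.MP_8cf036_co_h80.Tree

/-!
# The star hypergraph and the decoding of its centres
-/

set_option autoImplicit false
set_option linter.unusedSectionVars false

namespace Pool.Agent.Lib.MP_8cf036_co_h80

open Finset

section star

variable {R : ℕ} {L A F : Type*} [DecidableEq L] [Fintype L] [AddCommGroup A] [DecidableEq A]
  [AddCommGroup F] [DecidableEq F]
  (ev : L → A →+ F) (g : Finset L → Finset L → L × Bool) (P : A → Bool) (𝓙 : Set (Finset L))

/-- the labels whose form vanishes at `d` -/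
def Zs (d : A) : Finset L := univ.filter fun i => ev i d = 0

theorem Zs_neg (d : A) : Zs ev (-d) = Zs ev d := by
  unfold Zs
  simp

/-- The words `r i`, `i ∈ I`, leave `p` at distinct levels `ν i`, and the directions are decoded
correctly. -/
def Code (p : Fin R → A) (I : Finset L) (r : L → Fin R → A) (ν : L → Fin R) : Prop :=
  (∀ i ∈ I, DV p (r i) (ν i)) ∧ (∀ i ∈ I, ∀ j ∈ I, ν i = ν j → i = j) ∧
  ∀ i ∈ I, ∀ j ∈ I, i ≠ j →
    g (Zs ev (r i (ν i) - p (ν i))) (Zs ev (r j (ν j) - p (ν j))) = (i, P (r i (ν i) - p (ν i)))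

variable {ev g P 𝓙}

theorem Code.mono {p : Fin R → A} {I I' : Finset L} {r : L → Fin R → A} {ν : L → Fin R}
    (h : Code ev g P p I r ν) (hI : I' ⊆ I) : Code ev g P p I' r ν :=
  ⟨fun i hi => h.1 i (hI hi), fun i hi j hj => h.2.1 i (hI hi) j (hI hj),
    fun i hi j hj => h.2.2 i (hI hi) j (hI hj)⟩

theorem Code.inj {p : Fin R → A} {I : Finset L} {r : L → Fin R → A} {ν : L → Fin R}
    (h : Code ev g P p I r ν) {i j : L} (hi : i ∈ I) (hj : j ∈ I) (hr : r i = r j) : i = j := by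
  apply h.2.1 i hi j hj
  have h1 := h.1 i hi
  rw [hr] at h1
  exact h1.unique (h.1 j hj)

theorem Code.ne {p : Fin R → A} {I : Finset L} {r : L → Fin R → A} {ν : L → Fin R}
    (h : Code ev g P p I r ν) {i : L} (hi : i ∈ I) : p ≠ r i := (h.1 i hi).ne

/-- The deepest leaf may replace the centre. -/
theorem Code.shift {p : Fin R → A} {I : Finset L} {r : L → Fin R → A} {ν : L → Fin R}
    (h : Code ev g P p I r ν) {i1 : L} (hi1 : i1 ∈ I) (hmax : ∀ i ∈ I, ν i ≤ ν i1) :
    Code ev g P (r i1) (I.erase i1) r ν := by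
  have hlt : ∀ i ∈ I.erase i1, ν i < ν i1 := by
    intro i hi
    refine lt_of_le_of_ne (hmax i (mem_of_mem_erase hi)) fun he => ?_
    exact (ne_of_mem_erase hi) (h.2.1 i (mem_of_mem_erase hi) i1 hi1 he)
  have heq : ∀ i ∈ I.erase i1, r i1 (ν i) = p (ν i) := fun i hi =>
    ((h.1 i1 hi1).1 (ν i) (hlt i hi)).symm
  refine ⟨fun i hi => ?_, fun i hi j hj => h.2.1 i (mem_of_mem_erase hi) j (mem_of_mem_erase hj),
    fun i hi j hj hij => ?_⟩
  · exact (h.1 i (mem_of_mem_erase hi)).of_lt (h.1 i1 hi1) (hlt i hi)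
  · rw [heq i hi, heq j hj]
    exact h.2.2 i (mem_of_mem_erase hi) j (mem_of_mem_erase hj) hij

variable (ev g P 𝓙)

/-- `c` is the centre decoded from the vertex set `S`. -/
def Form (S : Finset (Fin R → A)) (c : Fin R → A) : Prop :=
  ∃ J ∈ 𝓙, ∃ i0 ∈ J, ∃ (p : Fin R → A) (r : L → Fin R → A) (ν : L → Fin R),
    Code ev g P p (J.erase i0) r ν ∧ S = insert p ((J.erase i0).image r) ∧
    (∀ i ∈ J.erase i0, ∀ l, ev i (c l) = ev i (r i l)) ∧ ∀ l, ev i0 (c l) = ev i0 (p l)

/-- The edges of the star hypergraph, with their centres. -/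
def Edge (e : Finset (Fin R → A)) (c : Fin R → A) : Prop :=
  ∃ J ∈ 𝓙, ∃ (r : L → Fin R → A) (ν : L → Fin R), Code ev g P c J r ν ∧
    e = insert c (J.image r) ∧ ∀ i ∈ J, ∀ l, ev i (r i l) = ev i (c l)

variable {ev g P 𝓙}

theorem Edge.mem {e : Finset (Fin R → A)} {c : Fin R → A} (h : Edge ev g P 𝓙 e c) : c ∈ e := by
  obtain ⟨J, hJ, r, ν, hC, rfl, hf⟩ := h
  exact mem_insert_self _ _

theorem Edge.card {K : ℕ} (hJc : ∀ J ∈ 𝓙, J.card = K) {e : Finset (Fin R → A)} {c : Fin R → A}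
    (h : Edge ev g P 𝓙 e c) : e.card = K + 1 := by
  obtain ⟨J, hJ, r, ν, hC, rfl, hf⟩ := h
  rw [card_insert_of_notMem, card_image_of_injOn, hJc J hJ]
  · intro i hi j hj hr
    exact hC.inj hi hj hr
  · intro hc
    obtain ⟨i, hi, he⟩ := mem_image.1 hc
    exact hC.ne hi he.symm

theorem Edge.form {K : ℕ} (hK : 1 ≤ K) (hJc : ∀ J ∈ 𝓙, J.card = K) {e : Finset (Fin R → A)}
    {c : Fin R → A} (h : Edge ev g P 𝓙 e c) {u : Fin R → A} (hu : u ∈ e) :
    Form ev g P 𝓙 (e.erase u) c := by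
  obtain ⟨J, hJ, r, ν, hC, rfl, hf⟩ := h
  have hcn : c ∉ J.image r := by
    intro hc
    obtain ⟨i, hi, he⟩ := mem_image.1 hc
    exact hC.ne hi he.symm
  rcases mem_insert.1 hu with rfl | hu
  · have hne : J.Nonempty := card_pos.1 (by rw [hJc J hJ]; omega)
    obtain ⟨i1, hi1, hmax⟩ := exists_max_image J ν hne
    refine ⟨J, hJ, i1, hi1, r i1, r, ν, hC.shift hi1 hmax, ?_, ?_, ?_⟩
    · rw [erase_insert hcn, ← image_insert, insert_erase hi1]
    · intro i hi l
      exact (hf i (mem_of_mem_erase hi) l).symm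
    · intro l
      exact (hf i1 hi1 l).symm
  · obtain ⟨i0, hi0, rfl⟩ := mem_image.1 hu
    refine ⟨J, hJ, i0, hi0, c, r, ν, hC.mono (erase_subset _ _), ?_, ?_, fun _ => rfl⟩
    · have h1 : (J.erase i0).image r = (J.image r).erase (r i0) := by
        ext x
        simp only [mem_image, mem_erase]
        constructor
        · rintro ⟨i, ⟨hne, hi⟩, rfl⟩
          exact ⟨fun he => hne (hC.inj hi hi0 he), i, hi, rfl⟩
        · rintro ⟨hne, i, hi, rfl⟩
          exact ⟨i, ⟨fun he => hne (he ▸ rfl), hi⟩, rfl⟩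
      rw [h1, erase_insert_of_ne (hC.ne hi0)]
    · intro i hi l
      exact (hf i (mem_of_mem_erase hi) l).symm

/-- The decoded centre is unique. -/
theorem form_unique {K : ℕ} (hK : 3 ≤ K) (hJc : ∀ J ∈ 𝓙, J.card = K)
    (hJ2 : ∀ J ∈ 𝓙, ∀ J' ∈ 𝓙, ∀ i ∈ J, ∀ j ∈ J, i ≠ j → i ∈ J' → j ∈ J' → J = J')
    (hev : ∀ J ∈ 𝓙, ∀ d : A, (∀ i ∈ J, ev i d = 0) → d = 0)
    (hP : ∀ d : A, d ≠ 0 → P (-d) ≠ P d)
    {S : Finset (Fin R → A)} {c c' : Fin R → A} (h : Form ev g P 𝓙 S c)
    (h' : Form ev g P 𝓙 S c') : c = c' := by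
  obtain ⟨J, hJ, i0, hi0, p, r, ν, hC, hS, hc, hc0⟩ := h
  obtain ⟨J', hJ', i0', hi0', p', r', ν', hC', hS', hc', hc0'⟩ := h'
  have hIc : (J.erase i0).card = K - 1 := by rw [card_erase_of_mem hi0, hJc J hJ]
  have hIc' : (J'.erase i0').card = K - 1 := by rw [card_erase_of_mem hi0', hJc J' hJ']
  have hSS := hS.symm.trans hS'
  have hpp : p' = p := by
    by_contra hne
    have h1 : p' ∈ insert p ((J.erase i0).image r) := by
      rw [hSS]; exact mem_insert_self _ _
    rcases mem_insert.1 h1 with h1 | h1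
    · exact hne h1
    obtain ⟨i1, hi1, hri1⟩ := mem_image.1 h1
    have h2 : p ∈ insert p' ((J'.erase i0').image r') := by
      rw [← hSS]; exact mem_insert_self _ _
    rcases mem_insert.1 h2 with h2 | h2
    · exact hne h2.symm
    obtain ⟨i1', hi1', hri1'⟩ := mem_image.1 h2
    obtain ⟨i, hi, hii1⟩ := exists_mem_ne (by omega : 1 < (J.erase i0).card) i1
    have h3 : r i ∈ insert p' ((J'.erase i0').image r') := by
      rw [← hSS]; exact mem_insert_of_mem (mem_image_of_mem _ hi)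
    rcases mem_insert.1 h3 with h3 | h3
    · exact hii1 (hC.inj hi hi1 (h3.trans hri1.symm))
    obtain ⟨i', hi', hri'⟩ := mem_image.1 h3
    have hii1' : i1' ≠ i' := by
      rintro rfl
      exact hC.ne hi (hri1'.symm.trans hri')
    have d1 : DV p' p (ν' i1') := by
      have := hC'.1 i1' hi1'
      rwa [hri1'] at this
    have d2 : DV p p' (ν i1) := by
      have := hC.1 i1 hi1
      rwa [hri1] at this
    have e1 : ν' i1' = ν i1 := d1.unique d2.symm
    have d3 : DV p' (r i) (ν' i') := by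
      have := hC'.1 i' hi'
      rwa [hri'] at this
    have d4 : DV p (r i) (ν i) := hC.1 i hi
    rcases lt_trichotomy (ν i) (ν i1) with hlt | heq | hgt
    · have e2 : ν' i' = ν i := d3.unique (d4.of_lt d2 hlt)
      have e3 : p' (ν i) = p (ν i) := (d2.1 _ hlt).symm
      have c1 := hC.2.2 i1 hi1 i hi (Ne.symm hii1)
      have c2 := hC'.2.2 i1' hi1' i' hi' hii1'
      rw [hri1'] at c2
      rw [hri1] at c1
      rw [e1, hri', e2, e3] at c2
      have e4 : p (ν i1) - p' (ν i1) = -(p' (ν i1) - p (ν i1)) := by abel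
      rw [e4, Zs_neg] at c2
      have c3 := congrArg Prod.snd (c1.symm.trans c2)
      exact hP _ (sub_ne_zero.2 (Ne.symm d2.2)) c3.symm
    · exact hii1 (hC.2.1 i hi i1 hi1 heq)
    · have d5 : DV (r i) p' (ν i1) := d2.of_lt d4 hgt
      have e2 : ν' i' = ν i1 := d3.unique d5.symm
      exact hii1' (hC'.2.1 i1' hi1' i' hi' (e1.trans e2.symm))
  subst hpp
  -- the labels agree
  have hlab : ∀ i ∈ J.erase i0, i ∈ J'.erase i0' ∧ r i = r' i := by
    intro i hi
    obtain ⟨j, hj, hji⟩ := exists_mem_ne (by omega : 1 < (J.erase i0).card) i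
    have hmem : ∀ i ∈ J.erase i0, ∃ i' ∈ J'.erase i0', r' i' = r i := by
      intro i hi
      have h3 : r i ∈ insert p' ((J'.erase i0').image r') := by
        rw [← hSS]; exact mem_insert_of_mem (mem_image_of_mem _ hi)
      rcases mem_insert.1 h3 with h3 | h3
      · exact absurd h3.symm (hC.ne hi)
      · exact mem_image.1 h3
    obtain ⟨i', hi', hri'⟩ := hmem i hi
    obtain ⟨j', hj', hrj'⟩ := hmem j hj
    have hne : i' ≠ j' := by
      rintro rfl
      exact hji (hC.inj hj hi (hrj'.symm.trans hri'))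
    have e1 : ν' i' = ν i := by
      have := hC'.1 i' hi'
      rw [hri'] at this
      exact this.unique (hC.1 i hi)
    have e2 : ν' j' = ν j := by
      have := hC'.1 j' hj'
      rw [hrj'] at this
      exact this.unique (hC.1 j hj)
    have c1 := hC.2.2 i hi j hj (Ne.symm hji)
    have c2 := hC'.2.2 i' hi' j' hj' hne
    rw [hri', hrj', e1, e2] at c2
    have c3 : i = i' := congrArg Prod.fst (c1.symm.trans c2)
    subst c3
    exact ⟨hi', hri'.symm⟩
  have hsub : J.erase i0 ⊆ J'.erase i0' := fun i hi => (hlab i hi).1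
  have hI : J.erase i0 = J'.erase i0' := eq_of_subset_of_card_le hsub (by omega)
  have hJJ : J = J' := by
    obtain ⟨i, hi, j, hj, hij⟩ := one_lt_card.1 (by omega : 1 < (J.erase i0).card)
    exact hJ2 J hJ J' hJ' i (mem_of_mem_erase hi) j (mem_of_mem_erase hj) hij
      (mem_of_mem_erase (hsub hi)) (mem_of_mem_erase (hsub hj))
  subst hJJ
  have hi00 : i0 = i0' := by
    by_contra hne
    have h1 : i0 ∈ J.erase i0' := mem_erase.2 ⟨hne, hi0⟩
    rw [← hI] at h1
    exact (notMem_erase _ _) h1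
  subst hi00
  funext l
  rw [← sub_eq_zero]
  apply hev J hJ
  intro i hi
  rw [map_sub, sub_eq_zero]
  by_cases hii : i = i0
  · rw [hii, hc0 l, hc0' l]
  · have hi' := mem_erase.2 ⟨hii, hi⟩
    rw [hc i hi' l, hc' i hi' l, (hlab i hi').2]

/-- Edges sharing `K` vertices have the same centre. -/
theorem edge_centre {K : ℕ} (hK : 3 ≤ K) (hJc : ∀ J ∈ 𝓙, J.card = K)
    (hJ2 : ∀ J ∈ 𝓙, ∀ J' ∈ 𝓙, ∀ i ∈ J, ∀ j ∈ J, i ≠ j → i ∈ J' → j ∈ J' → J = J')
    (hev : ∀ J ∈ 𝓙, ∀ d : A, (∀ i ∈ J, ev i d = 0) → d = 0)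
    (hP : ∀ d : A, d ≠ 0 → P (-d) ≠ P d)
    {e e' : Finset (Fin R → A)} {c c' : Fin R → A} (h : Edge ev g P 𝓙 e c)
    (h' : Edge ev g P 𝓙 e' c') (hee : K ≤ (e ∩ e').card) : c = c' := by
  obtain ⟨S, hS, hSc⟩ := exists_subset_card_eq hee
  have hSe : S ⊆ e := hS.trans inter_subset_left
  have hSe' : S ⊆ e' := hS.trans inter_subset_right
  have key : ∀ {e : Finset (Fin R → A)} {c : Fin R → A}, Edge ev g P 𝓙 e c → S ⊆ e →
      Form ev g P 𝓙 S c := by
    intro e c h hSe
    have h1 : (e \ S).card = 1 := by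
      rw [card_sdiff_of_subset hSe, h.card hJc, hSc]
      omega
    obtain ⟨u, hu⟩ := card_eq_one.1 h1
    have hue : u ∈ e := (mem_sdiff.1 (hu ▸ mem_singleton_self u)).1
    have h2 : e.erase u = S := by
      rw [← sdiff_singleton_eq_erase, ← hu, Finset.sdiff_sdiff_eq_self hSe]
    rw [← h2]
    exact h.form (by omega) hJc hue
  exact form_unique hK hJc hJ2 hev hP (key h hSe) (key h' hSe')

end star

end Pool.Agent.Lib.MP_8cf036_co_h80
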