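import Mathlib

/-!
# Words, first differences and branching levels
-/

set_option autoImplicit false

namespace Pool.Agent.Lib.MP_8cf036_co_h80

open Finset

section words

variable {R : ℕ} {A : Type*}

/-- `l` is the first level at which `x` and `y` differ. -/
def DV (x y : Fin R → A) (l : Fin R) : Prop := (∀ l' < l, x l' = y l') ∧ x l ≠ y l

theorem DV.symm {x y : Fin R → A} {l : Fin R} (h : DV x y l) : DV y x l :=
  ⟨fun l' hl' => (h.1 l' hl').symm, h.2.symm⟩

theorem DV.ne {x y : Fin R → A} {l : Fin R} (h : DV x y l) : x ≠ y := fun e => h.2 (e ▸ rfl)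

theorem DV.unique {x y : Fin R → A} {l l' : Fin R} (h : DV x y l) (h' : DV x y l') : l = l' := by
  rcases lt_trichotomy l l' with hl | hl | hl
  · exact absurd (h'.1 l hl) h.2
  · exact hl
  · exact absurd (h.1 l' hl) h'.2

/-- If `x` leaves `p` before `y` does, then `x` leaves `y` at the same level. -/
theorem DV.of_lt {p x y : Fin R → A} {l l' : Fin R} (hx : DV p x l) (hy : DV p y l') (h : l < l') :
    DV y x l :=
  ⟨fun i hi => ((hy.1 i (hi.trans h)).symm.trans (hx.1 i hi)), by
    rw [← hy.1 l h]; exact hx.2⟩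

theorem exists_DV {x y : Fin R → A} (h : x ≠ y) : ∃ l, DV x y l := by
  classical
  obtain ⟨l0, hl0⟩ := Function.ne_iff.1 h
  have hne : (univ.filter fun l : Fin R => x l ≠ y l).Nonempty :=
    ⟨l0, mem_filter.2 ⟨mem_univ _, hl0⟩⟩
  refine ⟨(univ.filter fun l : Fin R => x l ≠ y l).min' hne, ?_, ?_⟩
  · intro l' hl'
    by_contra hcon
    exact absurd (min'_le _ l' (mem_filter.2 ⟨mem_univ _, hcon⟩)) (not_le.2 hl')
  · exact (mem_filter.1 (min'_mem _ hne)).2

open Classical in
/-- the levels at which some element of `T` leaves `c` -/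
noncomputable def Br (T : Finset (Fin R → A)) (c : Fin R → A) : Finset (Fin R) :=
  univ.filter fun l => ∃ x ∈ T, DV c x l

theorem mem_Br {T : Finset (Fin R → A)} {c : Fin R → A} {l : Fin R} :
    l ∈ Br T c ↔ ∃ x ∈ T, DV c x l := by
  simp [Br]

/-- There are few words in `T` with few branching levels. -/
theorem card_few_branch [Fintype A] [Nonempty A] (T : Finset (Fin R → A)) (b : ℕ) :
    (T.filter fun c => (Br T c).card ≤ b).card ≤ Fintype.card A ^ b := by
  classical
  let Φ : (Fin R → A) → Fin b → A := fun c j =>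
    if h : ∃ l ∈ Br T c, ((Br T c).filter (· < l)).card = (j : ℕ) then c h.choose
    else Classical.arbitrary A
  have hrank : ∀ c, ∀ l ∈ Br T c, ∀ l' ∈ Br T c,
      ((Br T c).filter (· < l)).card = ((Br T c).filter (· < l')).card → l = l' := by
    intro c
    have key : ∀ l ∈ Br T c, ∀ l' ∈ Br T c, l < l' →
        ((Br T c).filter (· < l)).card < ((Br T c).filter (· < l')).card := by
      intro l hl l' hl' hlt
      apply card_lt_card
      rw [ssubset_iff_of_subset]
      · exact ⟨l, mem_filter.2 ⟨hl, hlt⟩, fun h => lt_irrefl _ (mem_filter.1 h).2⟩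
      · intro i hi
        obtain ⟨h1, h2⟩ := mem_filter.1 hi
        exact mem_filter.2 ⟨h1, h2.trans hlt⟩
    intro l hl l' hl' h
    rcases lt_trichotomy l l' with hlt | hlt | hlt
    · exact absurd h (key l hl l' hl' hlt).ne
    · exact hlt
    · exact absurd h (key l' hl' l hl hlt).ne'
  have hΦ : ∀ c, ∀ l ∈ Br T c, ∀ j : Fin b, ((Br T c).filter (· < l)).card = (j : ℕ) →
      Φ c j = c l := by
    intro c l hl j hj
    have h : ∃ l ∈ Br T c, ((Br T c).filter (· < l)).card = (j : ℕ) := ⟨l, hl, hj⟩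
    have h2 : h.choose = l := hrank c _ h.choose_spec.1 _ hl (h.choose_spec.2.trans hj.symm)
    simp only [Φ]
    rw [dif_pos h, h2]
  have hinj : Set.InjOn Φ (T.filter fun c => (Br T c).card ≤ b) := by
    intro c hc c' hc' h
    by_contra hne
    obtain ⟨hcT, hcb⟩ := mem_filter.1 hc
    obtain ⟨hcT', hcb'⟩ := mem_filter.1 hc'
    obtain ⟨l, hl⟩ := exists_DV hne
    have hlc : l ∈ Br T c := mem_Br.2 ⟨c', hcT', hl⟩
    have hlc' : l ∈ Br T c' := mem_Br.2 ⟨c, hcT, hl.symm⟩
    have hfil : (Br T c).filter (· < l) = (Br T c').filter (· < l) := by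
      ext i
      simp only [mem_filter, mem_Br]
      constructor
      · rintro ⟨⟨x, hx, hd⟩, hi⟩
        refine ⟨⟨x, hx, ?_, ?_⟩, hi⟩
        · intro i' hi'
          rw [← hl.1 i' (hi'.trans hi)]
          exact hd.1 i' hi'
        · rw [← hl.1 i hi]
          exact hd.2
      · rintro ⟨⟨x, hx, hd⟩, hi⟩
        refine ⟨⟨x, hx, ?_, ?_⟩, hi⟩
        · intro i' hi'
          rw [hl.1 i' (hi'.trans hi)]
          exact hd.1 i' hi'
        · rw [hl.1 i hi]
          exact hd.2
    have hlt : ((Br T c).filter (· < l)).card < b := by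
      refine lt_of_lt_of_le (card_lt_card ?_) hcb
      rw [ssubset_iff_of_subset (filter_subset _ _)]
      exact ⟨l, hlc, fun h => lt_irrefl _ (mem_filter.1 h).2⟩
    have e1 := hΦ c l hlc ⟨_, hlt⟩ rfl
    have e2 := hΦ c' l hlc' ⟨_, hlt⟩ (by rw [← hfil])
    rw [h] at e1
    exact hl.2 (e1.symm.trans e2)
  calc _ ≤ (univ : Finset (Fin b → A)).card :=
        card_le_card_of_injOn Φ (fun _ _ => mem_coe.2 (mem_univ _)) hinj
    _ = Fintype.card A ^ b := by rw [card_univ, Fintype.card_fun, Fintype.card_fin]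

end words

end Pool.Agent.Lib.MP_8cf036_co_h80
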